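import Pool.Agent.Lib.MP_4960b8_pr.RN.Main

/-! The first horizontal moment of the boundary two-point function of a strip. -/

namespace Pool.Agent.Lib.MP_4960b8_pr.AM

open SAW Filter Topology
open QK hiding vv

/-- walks of `D` from a bottom vertex of a column `j ≥ 0` to a bottom vertex of a column `j' < 0` -/
def spans (D : Set V) : Set (List V) :=
  {γ | ∃ j j' : ℤ, j' < 0 ∧ 0 ≤ j ∧ γ ∈ saws D ⟨2 - j, j, 0⟩ ⟨2 - j', j', 0⟩}

lemma saws_eq {D : Set V} (hD : D.Finite) (h0 : ∀ u ∈ D, 0 ≤ u.k) {j j' : ℤ} (hj : j ≠ j') :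
    mu (saws D (qB j) (qB j')) = comba_m D (· = pB j') j := by
  refine le_antisymm (mu_le_of_inj ((finite_exit hD _ _).subset fun _ h => h.1)
    (fun γ => γ.tail ++ [pB j']) (fun γ hγ => ?_) (fun a ha b hb e => ?_) fun γ hγ => ?_)
    (mu_le_of_inj (saws_finite hD _ _) (fun l => qB j :: l.dropLast) (fun l hl => ?_)
      (fun a ha b hb e => ?_) fun l hl => ?_)
  · obtain ⟨m, rfl, h4⟩ := mem_saws hγ
    obtain ⟨h1, h2, -, -, h5⟩ := hγ
    have s1 : Saw (pB j) (qB j) m := ⟨List.isChain_cons_cons.2 ⟨(comba_up j).adj, h1⟩,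
      List.nodup_cons.2 ⟨fun a => by have := h0 _ (h5 _ a); simp [pB] at this, h2⟩⟩
    refine ⟨⟨comba_ext s1 ?_ fun a => ?_, Inn_concat.2 h5, fun a => ?_⟩, by simp⟩
    · rw [List.tail_cons, h4, adj_iff]; dsimp only [pB, qB]; omega
    · rcases List.mem_cons.1 a with a | a
      · exact hj (congrArg V.j a).symm
      · have := h0 _ (h5 _ a); simp [pB] at this
    · have := h0 _ a
      simp [pB] at this
  · obtain ⟨m, rfl, -⟩ := mem_saws ha
    obtain ⟨m', rfl, -⟩ := mem_saws hb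
    rw [show m = m' from (List.append_inj' e rfl).1]
  · obtain ⟨m, rfl, -⟩ := mem_saws hγ
    simp
  · obtain ⟨⟨s, i, -⟩, e⟩ := hl
    rcases l.eq_nil_or_concat' with rfl | ⟨m, z, rfl⟩
    · have := congrArg V.k e
      simp [pB, qB] at this
    · obtain ⟨s1, s2, -⟩ := saw_append.1 s
      have a := adj_iff.1 (saw_nil.1 (saw_cons.1 s2).2.2)
      have b := Inn_concat.1 i
      have c := h0 _ (b _ (lv_mem (qB j) m))
      simp only [lv_append, lv_cons, lv_nil] at e
      subst e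
      dsimp only
      rw [List.dropLast_concat]
      refine ⟨(List.isChain_cons_cons.1 s1.1).2, (List.nodup_cons.1 s1.2).2, rfl, ?_, b⟩
      rw [getLast?_lv, Option.some.injEq, V.ext_iff]
      dsimp only [pB, qB] at a c ⊢
      omega
  · have key : ∀ l : List V, lv (qB j) l = pB j' → l = l.dropLast ++ [pB j'] := fun l e => by
      rcases l.eq_nil_or_concat' with rfl | ⟨m, z, rfl⟩
      · have := congrArg V.k e
        simp [pB, qB] at this
      · simp only [lv_append, lv_cons, lv_nil] at e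
        rw [List.dropLast_concat, e]
    rw [key a ha.2, key b hb.2, (List.cons.inj e).2]
  · rcases l.eq_nil_or_concat' with rfl | ⟨m, z, rfl⟩
    · have := congrArg V.k hl.2
      simp [pB, qB] at this
    · simp

lemma box_k {a b : ℤ} {T : ℕ} : ∀ u ∈ box a b T, 0 ≤ u.k := fun _ h => h.2.1

lemma spans_fin {D : Set V} (hD : D.Finite) : (spans D).Finite :=
  (finite_nodup D hD).subset fun _ ⟨_, _, _, _, h⟩ => ⟨h.2.1, h.2.2.2.2⟩

lemma spans_mono {D D' : Set V} (h : D ⊆ D') : spans D ⊆ spans D' :=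
  fun _ ⟨j, j', a, b, c⟩ => ⟨j, j', a, b, c.1, c.2.1, c.2.2.1, c.2.2.2.1,
    fun v hv => h (c.2.2.2.2 v hv)⟩

lemma spans_eq (T N : ℕ) : mu (spans (box (-N) N T)) = ∑ j ∈ Finset.Ico (0 : ℤ) N,
    ∑ j' ∈ Finset.Ico (-N : ℤ) 0, comba_m (box (-N) N T) (· = pB j') j := by
  have f := comba_box_fin (-N) N T
  rw [← Finset.sum_product', ← Finset.sum_congr rfl fun x hx => saws_eq f box_k (j := x.1)
    (j' := x.2) (by simp only [Finset.mem_product, Finset.mem_Ico] at hx; omega)]
  unfold mu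
  rw [← ms_biUnion _ _ (fun x _ => saws_finite f _ _) fun x _ y _ hne => Set.disjoint_left.2
    fun γ a b => hne ?_]
  · congr 1
    ext γ
    simp only [Set.mem_iUnion, Finset.mem_product, Finset.mem_Ico, exists_prop]
    constructor
    · rintro ⟨j, j', a, b, c⟩
      obtain ⟨m, rfl, e⟩ := mem_saws c
      have a1 := comba_mem_box.1 (c.2.2.2.2 _ List.mem_cons_self)
      have a2 := comba_mem_box.1 (c.2.2.2.2 _ (lv_mem _ m))
      rw [e] at a2
      dsimp only at a1 a2
      exact ⟨(j, j'), ⟨⟨b, by omega⟩, by omega, a⟩, c⟩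
    · rintro ⟨x, ⟨a, b⟩, c⟩
      exact ⟨x.1, x.2, b.2, a.1, c⟩
  · have e1 := congrArg V.j (Option.some.inj (a.2.2.1.symm.trans b.2.2.1))
    have e2 := congrArg V.j (Option.some.inj (a.2.2.2.1.symm.trans b.2.2.2.1))
    exact Prod.ext e1 e2

/-- the imaginary part of the identity, summed over the right half of the box -/
lemma half_flux {T : ℕ} (hT : 1 ≤ T) (N : ℕ) :
    c8 * mu (spans (box (-N) N T)) =
      2 * s8 * c8 * comba_M (box (-N) N T) 0 N (·.j = N) -
        s8 * comba_M (box (-N) N T) 0 N (·.j = -N - 1) := by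
  have h := comba_box_st (-N) N hT
  set D := box (-N) N T with hD
  have hP : ∀ u ∈ D, ∀ v, Adj u v → v ∉ D → (v.j = -N - 1 ↔ v.j = u.j - 1) :=
    fun u hu v ad hv => by
      rw [hD, comba_mem_box] at hu hv
      rw [adj_iff] at ad
      omega
  have e1 : ∀ j ∈ Finset.Ico (0 : ℤ) N, s8 * comba_m D (·.j = -N - 1) j -
      2 * s8 * c8 * comba_m D (·.j = N) j +
      ∑ j' ∈ Finset.Ico (-N : ℤ) N, c8 * (Int.sign (j - j') : ℝ) * comba_m D (· = pB j') j = 0 := by
    intro j hj
    have hj' : (-N : ℤ) ≤ j ∧ j < N := by rw [Finset.mem_Ico] at hj; omega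
    have := (h.good j).ident_im
    rw [ms_eq_sum (finite_exit h.fin _ _), Finset.sum_congr rfl fun l hl =>
      comba_im h (P := fun v => v.j = -N - 1) hP hj' ((Set.Finite.mem_toFinset _).1 hl),
      Finset.sum_add_distrib, Finset.sum_sub_distrib, Finset.sum_comm] at this
    simp only [comba_m_eq h.fin, Finset.mul_sum]
    convert this
  have e2 := Finset.sum_eq_zero e1
  rw [Finset.sum_add_distrib, Finset.sum_sub_distrib, ← Finset.mul_sum, ← Finset.mul_sum] at e2
  have e3 : ∑ j ∈ Finset.Ico (0 : ℤ) N, ∑ j' ∈ Finset.Ico (0 : ℤ) N,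
      c8 * (Int.sign (j - j') : ℝ) * comba_m D (· = pB j') j =
      -∑ j ∈ Finset.Ico (0 : ℤ) N, ∑ j' ∈ Finset.Ico (0 : ℤ) N,
      c8 * (Int.sign (j - j') : ℝ) * comba_m D (· = pB j') j := by
    conv_rhs => rw [Finset.sum_comm]
    simp only [← Finset.sum_neg_distrib]
    refine Finset.sum_congr rfl fun j _ => Finset.sum_congr rfl fun j' _ => ?_
    rw [le_antisymm (comba_arc h j j') (comba_arc h j' j), ← neg_sub j j', Int.sign_neg]
    push_cast
    ring
  have e4 : ∑ j ∈ Finset.Ico (0 : ℤ) N, ∑ j' ∈ Finset.Ico (-N : ℤ) N,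
      c8 * (Int.sign (j - j') : ℝ) * comba_m D (· = pB j') j =
      c8 * mu (spans D) + ∑ j ∈ Finset.Ico (0 : ℤ) N, ∑ j' ∈ Finset.Ico (0 : ℤ) N,
      c8 * (Int.sign (j - j') : ℝ) * comba_m D (· = pB j') j := by
    rw [hD, spans_eq, Finset.mul_sum, ← Finset.sum_add_distrib]
    refine Finset.sum_congr rfl fun j hj => ?_
    rw [← Finset.Ico_union_Ico_eq_Ico (a := (-N : ℤ)) (b := 0) (c := N) (by omega) (by omega),
      Finset.sum_union (Finset.Ico_disjoint_Ico_consecutive _ _ _), Finset.mul_sum]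
    congr 1
    refine Finset.sum_congr rfl fun j' hj' => ?_
    rw [Finset.mem_Ico] at hj hj'
    rw [Int.sign_eq_one_of_pos (by omega)]
    simp
  unfold comba_M
  linarith

lemma spans_lim {T : ℕ} (hT : 1 ≤ T) {s : ℝ} (h : Tendsto (RT T) atTop (𝓝 s)) :
    Tendsto (fun N : ℕ => mu (spans (box (-N) N T))) atTop (𝓝 (2 * s8 * s)) := by
  have h2 : Tendsto (fun N => RT T (2 * N)) atTop (𝓝 s) :=
    h.comp (tendsto_id.const_mul_atTop' (by norm_num))
  have sp : ∀ (N : ℕ) (P : V → Prop), comba_M (box (-N) N T) (-N) N P =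
      comba_M (box (-N) N T) (-N) 0 P + comba_M (box (-N) N T) 0 N P := fun N P => by
    unfold comba_M
    rw [← Finset.sum_union (Finset.Ico_disjoint_Ico_consecutive _ _ _),
      Finset.Ico_union_Ico_eq_Ico (by omega) (by omega)]
  have nn : ∀ (D : Set V) (a b : ℤ) (P : V → Prop), 0 ≤ comba_M D a b P :=
    fun D a b P => Finset.sum_nonneg fun j _ => comba_m_nonneg _ _ j
  have hR : Tendsto (fun N : ℕ => comba_M (box (-N) N T) 0 N (·.j = N)) atTop (𝓝 s) := by
    refine tendsto_of_tendsto_of_tendsto_of_le_of_le h h2 (fun N => ?_) fun N => ?_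
    · rw [← comba_R_eq (a := 0) (b := N) T N (by omega)]
      exact comba_M_le 0 (comba_box_fin _ _ _)
        (fun u hu => by rw [comba_gT0]; rw [comba_mem_box] at *; omega) (by omega) (by omega)
        fun v hv => by rw [comba_gT0, comba_mem_box]; exact ⟨by omega, hv⟩
    · have a := comba_R_eq (a := -N) (b := N) T (2 * N) (by omega)
      have b := sp N (·.j = N)
      have c := nn (box (-N) N T) (-N) 0 (·.j = N)
      unfold comba_R at a
      dsimp only
      linarith
  have hL : Tendsto (fun N : ℕ => xc * comba_M (box (-N) N T) 0 N (·.j = -N - 1)) atTop (𝓝 0) := by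
    have z := h2.sub h
    rw [sub_self] at z
    refine tendsto_of_tendsto_of_tendsto_of_le_of_le tendsto_const_nhds z
      (fun N => mul_nonneg xc_pos.le (nn _ _ _ _)) fun N => ?_
    have a1 := comba_R_eq (a := -N) (b := N) T (2 * N) (by omega)
    have a2 := comba_R_eq (a := -N) (b := 0) T N (by omega)
    have b1 := comba_LR (-N) N hT
    have b2 := comba_LR (-N) 0 hT
    have c : comba_L (-N) 0 T ≤ comba_M (box (-N) N T) (-N) 0 (·.j = -N - 1) :=
      comba_M_le 0 (comba_box_fin _ _ _)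
        (fun u hu => by rw [comba_gT0]; rw [comba_mem_box] at *; omega) (by omega) (by omega)
        fun v hv => by rw [comba_gT0, comba_mem_box]; exact ⟨by omega, hv⟩
    have d := sp N (·.j = -N - 1)
    have e := mul_le_mul_of_nonneg_left c xc_pos.le
    unfold comba_L at b1
    rw [d] at b1
    dsimp only
    linarith
  have t := (hR.const_mul (2 * s8)).sub (hL.const_mul (s8 / (c8 * xc)))
  rw [mul_zero, sub_zero] at t
  refine t.congr fun N => ?_
  have a := half_flux hT N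
  have c0 := c8_pos.ne'
  have x0 := xc_pos.ne'
  refine mul_left_cancel₀ c0 ?_
  rw [a]
  field_simp

/-- the strip made of the rows `0 ≤ k < T` -/
def strip (T : ℕ) : Set V := {v | 0 ≤ v.k ∧ v.k < T}

lemma spans_exact {T : ℕ} (hT : 1 ≤ T) {s : ℝ} (h : Tendsto (RT T) atTop (𝓝 s)) :
    (Summable fun γ : spans (strip T) => xc ^ γ.1.length) ∧ Zc (spans (strip T)) = 2 * s8 * s := by
  have t := spans_lim hT h
  have u := comba_Zc_le (A := spans (strip T)) (c := 2 * s8 * s) fun S hS hs => by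
    have fA : (V.j '' ⋃ γ ∈ S, {v | v ∈ γ}).Finite :=
      (hS.biUnion fun γ _ => γ.finite_toSet).image _
    obtain ⟨K1, h1⟩ := fA.bddAbove
    obtain ⟨K2, h2⟩ := fA.bddBelow
    refine ge_of_tendsto t ?_
    filter_upwards [eventually_ge_atTop (K1.toNat + (-K2).toNat + 1)] with N hN
    refine mu_mono (spans_fin (comba_box_fin _ _ _)) fun γ hγ => ?_
    obtain ⟨j, j', a, b, c⟩ := hs hγ
    refine ⟨j, j', a, b, c.1, c.2.1, c.2.2.1, c.2.2.2.1, fun v hv => ?_⟩
    have a1 := h1 ⟨v, Set.mem_biUnion hγ hv, rfl⟩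
    have a2 := h2 ⟨v, Set.mem_biUnion hγ hv, rfl⟩
    have a3 := c.2.2.2.2 v hv
    obtain ⟨m, rfl, -⟩ := mem_saws c
    have s1 : Saw (pB j) (qB j) m := ⟨List.isChain_cons_cons.2 ⟨(comba_up j).adj, c.1⟩,
      List.nodup_cons.2 ⟨fun a => by have := (c.2.2.2.2 _ a).1; simp [pB] at this, c.2.1⟩⟩
    exact ⟨s1.valid (List.mem_cons_of_mem _ hv), a3.1, a3.2, by omega, by omega⟩
  exact ⟨u.1, le_antisymm u.2 (le_of_tendsto' t fun N => comba_le_Zc u.1
    (spans_fin (comba_box_fin _ _ _)) (spans_mono fun v hv => ⟨hv.2.1, hv.2.2.1⟩))⟩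

theorem main : (∀ T : ℕ, Summable fun γ : spans (strip T) => xc ^ γ.1.length) ∧
    ∃ c : ℝ, 0 < c ∧
      Tendsto (fun T : ℕ => Zc (spans (strip T)) / (T : ℝ) ^ (3 / 4 : ℝ)) atTop (𝓝 c) := by
  obtain ⟨S, σ, hσ, h1, h2⟩ := RN.flux_lim
  refine ⟨fun T => ?_, 2 * s8 * σ, by have := s8_pos; positivity, ?_⟩
  · have a := spans_exact (T := T + 1000) (by omega) (h1 _ (by omega))
    refine (comba_Zc_le fun A hA hs => comba_le_Zc a.1 hA (hs.trans (spans_mono ?_))).1
    exact fun v hv => ⟨hv.1, hv.2.trans_le (by push_cast; omega)⟩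
  · refine (h2.const_mul (2 * s8)).congr' ?_
    filter_upwards [eventually_ge_atTop 1000] with T hT
    rw [(spans_exact (by omega) (h1 T hT)).2, mul_div_assoc]

end Pool.Agent.Lib.MP_4960b8_pr.AM
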