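import Pool.Agent.Lib.MP_4960b8_pr.AM.Main

/-! From the arcs above a point to the first moment, by translation. -/

namespace Pool.Agent.Lib.MP_4960b8_pr.AM

open SAW Filter Topology
open QK hiding vv

lemma tr_le (T : ℕ) {j j' i i' : ℤ} (h : i - j = i' - j')
    (hs : Summable fun γ : saws (strip T) (qB i) (qB i') => xc ^ γ.1.length) :
    (Summable fun γ : saws (strip T) (qB j) (qB j') => xc ^ γ.1.length) ∧
      Zc (saws (strip T) (qB j) (qB j')) ≤ Zc (saws (strip T) (qB i) (qB i')) := by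
  have hg : IsSym (gT (-(i - j)) (i - j) 0) := sym_T (by ring)
  refine comba_Zc_le fun S hS hA => (mu_le_of_inj (hS.image _)
    (fun γ => γ.map (gT (-(i - j)) (i - j) 0)) (fun γ hγ => Set.mem_image_of_mem _ hγ)
    (fun a _ b _ e => List.map_injective_iff.2 hg.1 e) fun γ _ => by simp).trans
    (comba_le_Zc hs (hS.image _) ?_)
  rintro _ ⟨γ, hγ, rfl⟩
  obtain ⟨h1, h2, h3, h4, h5⟩ := hA hγ
  refine ⟨(List.isChain_map _).2 (h1.imp fun _ _ a => hg.2 _ _ a), h2.map hg.1, ?_, ?_,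
    fun v hv => ?_⟩
  · rw [List.head?_map, h3, Option.map_some, comba_gq, show j + (i - j) = i by ring]
  · rw [List.getLast?_map, h4, Option.map_some, comba_gq, show j' + (i - j) = i' by omega]
  · obtain ⟨u, hu, rfl⟩ := List.mem_map.1 hv
    have := h5 u hu
    simp only [strip, gT, Set.mem_ofPred_eq] at this ⊢
    omega

lemma moment (T : ℕ) (hs : Summable fun γ : spans (strip T) => xc ^ γ.1.length) :
    (∀ β : ℕ, 1 ≤ β →
      Summable fun γ : saws (strip T) (qB 1) (qB (1 - β)) => xc ^ γ.1.length) ∧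
    HasSum (fun β : ℕ => (β : ℝ) * Zc (saws (strip T) (qB 1) (qB (1 - β))))
      (Zc (spans (strip T))) := by
  let B : ℕ × ℕ → Set (List V) := fun p => saws (strip T) (qB p.1) (qB (-1 - p.2))
  have hU : spans (strip T) = ⋃ p, B p := by
    ext γ
    simp only [Set.mem_iUnion]
    constructor
    · rintro ⟨j, j', a, b, c⟩
      refine ⟨(j.toNat, (-1 - j').toNat), ?_⟩
      simp only [B]
      rw [show ((j.toNat : ℕ) : ℤ) = j by omega,
        show -1 - (((-1 - j').toNat : ℕ) : ℤ) = j' by omega]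
      exact c
    · rintro ⟨p, c⟩
      exact ⟨p.1, -1 - p.2, by omega, by omega, c⟩
  have hd : Pairwise (Function.onFun Disjoint B) := fun x y hne => Set.disjoint_left.2
    fun γ a b => hne (by
      have e1 := congrArg V.j (Option.some.inj (a.2.2.1.symm.trans b.2.2.1))
      have e2 := congrArg V.j (Option.some.inj (a.2.2.2.1.symm.trans b.2.2.2.1))
      dsimp only [qB] at e1 e2
      exact Prod.ext (by omega) (by omega))
  have sB : ∀ p, Summable fun γ : B p => xc ^ γ.1.length := fun p =>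
    (comba_Zc_le fun A hA h => comba_le_Zc hs hA
      (h.trans (by rw [hU]; exact Set.subset_iUnion B p))).1
  have sG : ∀ p : ℕ × ℕ, (Summable fun γ : saws (strip T) (qB 1)
      (qB (1 - (p.1 + p.2 + 1 : ℕ))) => xc ^ γ.1.length) ∧
      Zc (B p) = Zc (saws (strip T) (qB 1) (qB (1 - (p.1 + p.2 + 1 : ℕ)))) := fun p => by
    have a := tr_le T (j := 1) (j' := 1 - (p.1 + p.2 + 1 : ℕ)) (by omega) (sB p)
    exact ⟨a.1, le_antisymm (tr_le T (by omega) a.1).2 a.2⟩
  refine ⟨fun β hβ => ?_, ?_⟩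
  · have := (sG (β - 1, 0)).1
    rwa [show (β - 1, 0).1 + (β - 1, 0).2 + 1 = β by dsimp only; omega] at this
  have h0 : HasSum (fun γ : ↥(⋃ p, B p) => xc ^ γ.1.length) (Zc (spans (strip T))) := by
    rw [← hU]; exact hs.hasSum
  have h1 : HasSum (fun x : Σ p, B p => xc ^ x.2.1.length) (Zc (spans (strip T))) := by
    refine ((Set.unionEqSigmaOfDisjoint hd).symm.hasSum_iff.2 h0).congr_fun fun x => ?_
    simp
  have h2 : HasSum (fun p => Zc (B p)) (Zc (spans (strip T))) :=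
    h1.sigma fun p => (sB p).hasSum
  have h3 := (Finset.HasAntidiagonal.sigmaAntidiagonalEquivProd.hasSum_iff.2 h2).sigma
    (g := fun n : ℕ => ((n + 1 : ℕ) : ℝ) * Zc (saws (strip T) (qB 1) (qB (1 - (n + 1 : ℕ)))))
    fun n => by
      have e : ∀ x : Finset.HasAntidiagonal.antidiagonal n, Zc (B x.1) =
          Zc (saws (strip T) (qB 1) (qB (1 - (n + 1 : ℕ)))) := fun x => by
        rw [(sG x.1).2, Finset.HasAntidiagonal.mem_antidiagonal.1 x.2]
      have a := hasSum_fintype fun _ : Finset.HasAntidiagonal.antidiagonal n =>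
        Zc (saws (strip T) (qB 1) (qB (1 - (n + 1 : ℕ))))
      rw [Finset.sum_const, Finset.card_univ, Fintype.card_coe, Finset.Nat.card_antidiagonal,
        nsmul_eq_mul] at a
      exact a.congr_fun e
  have h4 := (hasSum_nat_add_iff
    (f := fun β : ℕ => (β : ℝ) * Zc (saws (strip T) (qB 1) (qB (1 - β)))) 1).1 h3
  simpa using h4

theorem moment_lim : ∃ (G : ℕ → ℕ → ℝ) (M : ℕ → ℝ) (c : ℝ), 0 < c ∧
    (∀ T β : ℕ, 1 ≤ β → HasSum (fun γ : saws {v | 0 ≤ v.k ∧ v.k < T} ⟨1, 1, 0⟩ ⟨1 + β, 1 - β, 0⟩ =>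
      xc ^ γ.1.length) (G T β)) ∧
    (∀ T : ℕ, HasSum (fun β : ℕ => (β : ℝ) * G T β) (M T)) ∧
    Tendsto (fun T : ℕ => M T / (T : ℝ) ^ (3 / 4 : ℝ)) atTop (𝓝 c) := by
  obtain ⟨hs, c, hc, h⟩ := main
  refine ⟨fun T β => Zc (saws (strip T) (qB 1) (qB (1 - β))), fun T => Zc (spans (strip T)), c, hc,
    fun T β hβ => ?_, fun T => (moment T (hs T)).2, h⟩
  have e1 : (⟨1, 1, 0⟩ : V) = qB 1 := rfl
  have e2 : (⟨1 + β, 1 - β, 0⟩ : V) = qB (1 - β) := V.ext (by dsimp only [qB]; ring) rfl rfl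
  rw [e1, e2]
  exact ((moment T (hs T)).1 β hβ).hasSum

end Pool.Agent.Lib.MP_4960b8_pr.AM
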